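import Mathlib

/-!
# Matrices with an invariant subspace

A matrix of determinant one with an invariant subspace, neither zero nor everything, is conjugate in the
special linear group to a block upper triangular matrix.
-/

set_option autoImplicit false

open Matrix

namespace Pool.Agent.Helper88.EL

/-- A basis adapted to a subspace. -/
lemma adapted {F V : Type} [Field F] [AddCommGroup V] [Module F V] [FiniteDimensional F V]
    (W : Submodule F V) (h0 : W ≠ ⊥) (h1 : W ≠ ⊤) :
    ∃ (a b : ℕ) (v : Module.Basis (Fin a ⊕ Fin b) F V), 0 < a ∧ 0 < b ∧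
      (∀ w ∈ W, ∀ j : Fin b, v.repr w (Sum.inr j) = 0) ∧ ∀ i : Fin a, v (Sum.inl i) ∈ W := by
  obtain ⟨U, hU⟩ := Submodule.exists_isCompl W
  have hU0 : U ≠ ⊥ := by
    rintro rfl
    exact h1 (by simpa using hU.sup_eq_top)
  have ha : 0 < Module.finrank F W := by
    rw [Module.finrank_pos_iff]
    exact Submodule.nontrivial_iff_ne_bot.2 h0
  have hb : 0 < Module.finrank F U := by
    rw [Module.finrank_pos_iff]
    exact Submodule.nontrivial_iff_ne_bot.2 hU0
  let bW := Module.finBasis F W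
  let bU := Module.finBasis F U
  let v := (bW.prod bU).map (Submodule.prodEquivOfIsCompl W U hU)
  refine ⟨_, _, v, ha, hb, ?_, ?_⟩
  · intro w hw j
    have h2 : (Submodule.prodEquivOfIsCompl W U hU).symm w = (⟨w, hw⟩, 0) := by
      rw [LinearEquiv.symm_apply_eq]
      simp
    simp [v, Module.Basis.map_repr, h2]
  · intro i
    simp [v]

variable {F : Type} [Field F] {n : Type} [Fintype n] [DecidableEq n]

/-- A matrix of determinant one with an invariant subspace, neither zero nor everything, is conjugate in the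
special linear group to a block upper triangular matrix. -/
theorem exists_block (x : SpecialLinearGroup n F) (W : Submodule F (n → F))
    (hW : ∀ w ∈ W, x.1 *ᵥ w ∈ W) (h0 : W ≠ ⊥) (h1 : W ≠ ⊤) :
    ∃ (a b : ℕ) (e : n ≃ Fin a ⊕ Fin b) (g : SpecialLinearGroup n F) (A : Matrix (Fin a) (Fin a) F)
      (B : Matrix (Fin a) (Fin b) F) (D : Matrix (Fin b) (Fin b) F), 0 < a ∧ 0 < b ∧
      reindex e e (g * x * g⁻¹).1 = fromBlocks A B 0 D := by
  obtain ⟨a, b, v, ha, hb, hv, hv2⟩ := adapted W h0 h1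
  have hc : Fintype.card n = Fintype.card (Fin a ⊕ Fin b) := by
    rw [← Module.finrank_eq_card_basis v, Module.finrank_pi]
  let e : n ≃ Fin a ⊕ Fin b := Fintype.equivOfCardEq hc
  let v' : Module.Basis n F (n → F) := v.reindex e.symm
  let T : Matrix n n F := (Pi.basisFun F n).toMatrix v'
  have hT : T.det ≠ 0 := by
    have h2 : IsUnit T.det := by
      have := (Pi.basisFun F n).isUnit_det v'
      rwa [Module.Basis.det_apply] at this
    exact h2.ne_zero
  let i0 : n := e.symm (Sum.inl ⟨0, ha⟩)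
  let d : n → F := Function.update 1 i0 (T.det)⁻¹
  have hd : ∏ i, d i = (T.det)⁻¹ := by
    rw [Finset.prod_update_of_mem (Finset.mem_univ _)]
    simp
  have hd0 : ∀ i, d i ≠ 0 := by
    intro i
    by_cases h : i = i0
    · subst h
      simpa [d] using hT
    · simp [d, Function.update_of_ne h]
  let T' : SpecialLinearGroup n F := ⟨T * diagonal d, by
    rw [det_mul, det_diagonal, hd, mul_inv_cancel₀ hT]⟩
  have hT1 : (T'⁻¹).1 * T'.1 = 1 := congrArg Subtype.val (inv_mul_cancel T')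
  have hcol : ∀ u : n → F, T'.1 *ᵥ u = ∑ j, (d j * u j) • v' j := by
    intro u
    funext i
    simp only [T', T, mulVec, dotProduct, mul_diagonal, Module.Basis.toMatrix_apply,
      Pi.basisFun_repr, Finset.sum_apply, Pi.smul_apply, smul_eq_mul]
    exact Finset.sum_congr rfl fun j _ => by ring
  have hinv : ∀ w ∈ W, ∀ j : n, (∃ k, e j = Sum.inr k) → ((T'⁻¹).1 *ᵥ w) j = 0 := by
    intro w hw j hj
    have h2 : w = T'.1 *ᵥ fun i => (d i)⁻¹ * v'.repr w i := by
      rw [hcol]
      conv_lhs => rw [← v'.sum_repr w]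
      refine Finset.sum_congr rfl fun i _ => ?_
      rw [mul_inv_cancel_left₀ (hd0 i)]
    have h3 : (T'⁻¹).1 *ᵥ w = fun i => (d i)⁻¹ * v'.repr w i := by
      conv_lhs => rw [h2]
      rw [mulVec_mulVec, hT1, one_mulVec]
    rw [h3]
    obtain ⟨k, hk⟩ := hj
    simp [v', hk, hv w hw k]
  have hmem : ∀ i : n, (∃ k, e i = Sum.inl k) → (T'.1.col i) ∈ W := by
    intro i hi
    have h2 : T'.1.col i = d i • v' i := by
      rw [← mulVec_single_one, hcol]
      rw [Finset.sum_eq_single i]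
      · simp
      · intro j _ hj
        simp [Pi.single_eq_of_ne hj]
      · simp
    rw [h2]
    obtain ⟨k, hk⟩ := hi
    refine W.smul_mem _ ?_
    have h3 : v' i = v (Sum.inl k) := by
      simp [v', hk]
    rw [h3]
    exact hv2 k
  have h4 : (reindex e e (T'⁻¹ * x * (T'⁻¹)⁻¹).1).toBlocks₂₁ = 0 := by
    ext j i
    simp only [toBlocks₂₁, reindex_apply, submatrix_apply, of_apply, Matrix.zero_apply, inv_inv]
    have h5 : (T'⁻¹ * x * T').1 (e.symm (Sum.inr j)) (e.symm (Sum.inl i)) =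
        ((T'⁻¹).1 *ᵥ (x.1 *ᵥ (T'.1.col (e.symm (Sum.inl i))))) (e.symm (Sum.inr j)) := by
      have h6 : (T'⁻¹ * x * T').1 = (T'⁻¹).1 * (x.1 * T'.1) := by
        rw [← Matrix.mul_assoc]
        rfl
      rw [← mulVec_single_one, mulVec_mulVec, mulVec_mulVec, mulVec_single_one, h6, Matrix.mul_assoc]
      rfl
    rw [h5]
    exact hinv _ (hW _ (hmem _ ⟨i, by simp⟩)) _ ⟨j, by simp⟩
  refine ⟨a, b, e, T'⁻¹, (reindex e e (T'⁻¹ * x * (T'⁻¹)⁻¹).1).toBlocks₁₁,
    (reindex e e (T'⁻¹ * x * (T'⁻¹)⁻¹).1).toBlocks₁₂,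
    (reindex e e (T'⁻¹ * x * (T'⁻¹)⁻¹).1).toBlocks₂₂, ha, hb, ?_⟩
  rw [← h4, fromBlocks_toBlocks]

end Pool.Agent.Helper88.EL
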